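import Pool.Agent.HP778.EE

/-!
# The numbers `(n e ^ γ) ^ x` with exponents `x` in `ℚ̄(e)` or `ℚ̄(e, π)`

The number `e ^ e` is the member `n = 1`, `γ = 1`, `a = 0`, `b = 1` of the family
`(n e ^ γ) ^ (a + b e)`; another member is `(n e) ^ (n e)`. Part (1): for every fixed real algebraic
`γ ≠ 0` all members of this family are transcendental, for all algebraic `a`, `b ≠ 0` simultaneously,
for all but `log₂ N + 1` of the integers `n ≤ N`. Parts (3), (4): the same for all real algebraic `γ`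
simultaneously and for all exponents which are values of polynomials or rational functions of bounded
degree at `e` (or at `e` and `π`), up to a power of `log N`. Part (2): if `e ^ e` is algebraic then the
bound in (1) holds for all `γ` simultaneously.

The proof. The numbers `γ + log n` belong to the space of linear forms in `1` and logarithms of
algebraic numbers, and by Baker's theorem they are linearly independent if the `n` are multiplicatively
independent. The hyperplane case of the linear subgroup theorem of Waldschmidt and Roy (starting files)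
bounds the number of linearly independent elements of this space which stay in the space after
multiplication with numbers `P(e)`.
-/

set_option autoImplicit false

namespace Pool.Agent.Results.MP_58ae59_nt.BasesTimesPowersOfE

open Module Finset
open Pool.Agent.HP778 Pool.Agent.HP778.KZ Pool.Agent.HP778.EE
open Pool.Agent.H301R2.SSE (QB mem_QB Lt Lt_mul Lt_alg Lt_log Lt_one)

/-- The linear combinations, with algebraic coefficients, of `1` and of logarithms of algebraic
numbers. -/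
noncomputable def LogForms : Submodule (algebraicClosure ℚ ℂ) ℂ :=
  Submodule.span (algebraicClosure ℚ ℂ) ({1} ∪ {z : ℂ | IsAlgebraic ℚ (Complex.exp z)})

/-- The numbers `e ^ z` with `z` in `LogForms`, i.e. the numbers `e ^ γ α_1 ^ β_1 ⋯ α_k ^ β_k` with
algebraic `γ`, `α_i ≠ 0`, `β_i`. -/
def Prods : Set ℂ := {x | ∃ z ∈ LogForms, Complex.exp z = x}

open Classical in
/-- The integers `n` between `1` and `N` such that `(n e ^ γ) ^ x` is in `Prods` for SOME `γ` in `Γ` and
SOME `x` in `E`. -/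
noncomputable def bad (Γ : Set ℝ) (E : Set ℂ) (N : ℕ) : Finset ℕ :=
  (Finset.Icc 1 N).filter fun n => ∃ γ ∈ Γ, ∃ x ∈ E, ((n * Real.exp γ : ℝ) : ℂ) ^ x ∈ Prods

/-- the real algebraic numbers -/
def realAlg : Set ℝ := {γ | IsAlgebraic ℚ γ}

/-- the numbers `a + b e`, `a` and `b ≠ 0` algebraic -/
noncomputable def linearExps : Set ℂ :=
  {x | ∃ a b : ℂ, IsAlgebraic ℚ a ∧ IsAlgebraic ℚ b ∧ b ≠ 0 ∧ x = a + b * ((Real.exp 1 : ℝ) : ℂ)}

/-- the values `P(e)` of nonconstant polynomials of degree at most `D` with algebraic coefficients -/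
noncomputable def polyExps (D : ℕ) : Set ℂ :=
  {x | ∃ P : Polynomial (algebraicClosure ℚ ℂ), 1 ≤ P.natDegree ∧ P.natDegree ≤ D ∧
    x = Polynomial.aeval ((Real.exp 1 : ℝ) : ℂ) P}

/-- the transcendental values `P(t) / Q(t)`, with polynomials `P`, `Q` with algebraic coefficients and
of degree at most `D` in each of the `r` variables -/
def ratExps {r : ℕ} (t : Fin r → ℂ) (D : ℕ) : Set ℂ :=
  {x | Transcendental ℚ x ∧ ∃ P Q : MvPolynomial (Fin r) (algebraicClosure ℚ ℂ),
    (∀ i, P.degreeOf i ≤ D) ∧ (∀ i, Q.degreeOf i ≤ D) ∧ MvPolynomial.aeval t Q ≠ 0 ∧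
    x = MvPolynomial.aeval t P / MvPolynomial.aeval t Q}

theorem e_tr : Transcendental ℚ ((Real.exp 1 : ℝ) : ℂ) :=
  ofReal_transcendental Pool.Agent.H340R2.LW.transcendental_exp_one

theorem alg_real {γ : ℝ} (h : IsAlgebraic ℚ γ) : IsAlgebraic ℚ (γ : ℂ) := alg_ofReal h

theorem mem_of_bad {n : ℕ} (hn : 1 ≤ n) {γ : ℝ} {x : ℂ}
    (h : ((n * Real.exp γ : ℝ) : ℂ) ^ x ∈ Prods) :
    x * ((γ : ℂ) + ((Real.log n : ℝ) : ℂ)) ∈ Lt := by
  obtain ⟨z, hz, hze⟩ := h
  have hnpos : (0 : ℝ) < n := by exact_mod_cast hn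
  have hpos : (0 : ℝ) < n * Real.exp γ := mul_pos hnpos (Real.exp_pos _)
  have h1 : ((n * Real.exp γ : ℝ) : ℂ) ^ x =
      Complex.exp (x * ((γ : ℂ) + ((Real.log n : ℝ) : ℂ))) := by
    rw [Complex.cpow_def_of_ne_zero (by exact_mod_cast hpos.ne'), ← Complex.ofReal_log hpos.le,
      Real.log_mul hnpos.ne' (Real.exp_pos _).ne', Real.log_exp]
    push_cast
    ring_nf
  rw [h1] at hze
  exact mem_of_exp hz hze.symm

/-- in the family with linear exponents only the multiplication with `e` matters -/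
theorem linear_mem {x y : ℂ} (hx : x ∈ linearExps) (hy : y ∈ Lt) (h : x * y ∈ Lt) :
    ((Real.exp 1 : ℝ) : ℂ) * y ∈ Lt := by
  obtain ⟨a, b, ha, hb, hb0, rfl⟩ := hx
  have h1 : ((Real.exp 1 : ℝ) : ℂ) * y = b⁻¹ * ((a + b * ((Real.exp 1 : ℝ) : ℂ)) * y - a * y) := by
    field_simp
    ring
  rw [h1]
  exact Lt_mul hb.inv (Lt.sub_mem h (Lt_mul ha hy))

theorem base_mem {n : ℕ} (hn : 1 ≤ n) {γ : ℝ} (hγ : IsAlgebraic ℚ γ) :
    (γ : ℂ) + ((Real.log n : ℝ) : ℂ) ∈ Lt :=
  Lt.add_mem (Lt_alg (alg_real hγ)) (Lt_log (exp_log_alg hn))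

theorem bad_le {E : Set ℂ} {N r : ℕ}
    (h : ∀ (m : ℕ) (u : Fin m → ℂ), LinearIndependent QB u → (∀ i, u i ∈ Lt) →
      (∀ i, ∃ x ∈ E, x * u i ∈ Lt) → m ≤ r) :
    (bad realAlg E N).card ≤ (Nat.log 2 N + 1) ^ r := by
  classical
  have h1 := count_of (N := N) (r := r)
    (fun n => ∃ γ ∈ realAlg, ∃ x ∈ E, ((n * Real.exp γ : ℝ) : ℂ) ^ x ∈ Prods) (by
    intro m n hn halg hli
    choose hn1 γ hγ x hx hxp using hn
    refine h m (fun i => (γ i : ℂ) + ((Real.log (n i) : ℝ) : ℂ))
      (indep_add halg hli (fun i => (γ i : ℂ)) (fun i => alg_real (hγ i)))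
      (fun i => base_mem (hn1 i) (hγ i)) fun i => ?_
    exact ⟨x i, hx i, mem_of_bad (hn1 i) (hxp i)⟩)
  refine le_trans (le_of_eq ?_) h1
  unfold bad
  congr

/-- **Main result.** Let `L = log₂ N + 1` (rounded down) and `D ≥ 1`.

(1) Let `γ ≠ 0` be real and algebraic. For all but at most `L` of the integers `n` between `1` and `N`
the numbers `(n e ^ γ) ^ (a + b e)` are not in `Prods` (in particular transcendental), for all algebraic
`a` and all algebraic `b ≠ 0`. For `n = γ = b = 1`, `a = 0` this is `e ^ e`.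

(2) If `e ^ e` is in `Prods`, for instance rational or algebraic, then (1) holds, with the same bound,
for all real algebraic `γ` (`γ = 0` included) simultaneously.

(3) For all but at most `L ^ (4 D - 2)` of the `n` all the numbers `(n e ^ γ) ^ P(e)`, `γ` real algebraic,
`P` a nonconstant polynomial of degree at most `D` with algebraic coefficients, are not in `Prods`.

(4) The same for all exponents `P(e) / Q(e)` which are transcendental, with polynomials of degree at
most `D` and at most `L ^ (8 D - 4)` exceptions; (5) for all exponents `P(e, π) / Q(e, π)` which are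
transcendental, with polynomials of degree at most `D` in each variable and at most
`L ^ (32 D ^ 2 - 8)` exceptions.

(6) All nonzero algebraic numbers are in `Prods`, and `e` is in `Prods`. -/
theorem result :
    (∀ (γ : ℝ) (N : ℕ), IsAlgebraic ℚ γ → γ ≠ 0 →
      (bad {γ} linearExps N).card ≤ Nat.log 2 N + 1) ∧
    (((Real.exp 1 ^ Real.exp 1 : ℝ) : ℂ) ∈ Prods →
      ∀ N : ℕ, (bad realAlg linearExps N).card ≤ Nat.log 2 N + 1) ∧
    (∀ D N : ℕ, 1 ≤ D →
      (bad realAlg (polyExps D) N).card ≤ (Nat.log 2 N + 1) ^ (4 * D - 2)) ∧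
    (∀ D N : ℕ, 1 ≤ D →
      (bad realAlg (ratExps ![((Real.exp 1 : ℝ) : ℂ)] D) N).card ≤
        (Nat.log 2 N + 1) ^ (8 * D - 4) ∧
      (bad realAlg (ratExps ![((Real.exp 1 : ℝ) : ℂ), ((Real.pi : ℝ) : ℂ)] D) N).card ≤
        (Nat.log 2 N + 1) ^ (32 * D ^ 2 - 8)) ∧
    (∀ x : ℂ, x ≠ 0 → IsAlgebraic ℚ x → x ∈ Prods) ∧ ((Real.exp 1 : ℝ) : ℂ) ∈ Prods := by
  classical
  refine ⟨fun γ N hγ hγ0 => ?_, fun hee N => ?_, fun D N hD => bad_le fun m u hu huL h => ?_,
    fun D N hD => ⟨bad_le fun m u hu huL h => ?_, bad_le fun m u hu huL h => ?_⟩,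
    fun x hx0 hx => ?_, ?_⟩
  · refine count_add e_tr (alg_real hγ) (by exact_mod_cast hγ0) (N := N) _ ?_ ?_
    · intro n hn
      unfold bad at hn
      exact Finset.mem_Icc.mp (Finset.mem_filter.mp hn).1
    · intro n hn
      unfold bad at hn
      rw [Finset.mem_filter] at hn
      obtain ⟨hnI, γ', hγ', x, hx, hxp⟩ := hn
      rw [Set.mem_singleton_iff] at hγ'
      subst hγ'
      have hn1 := (Finset.mem_Icc.mp hnI).1
      exact linear_mem hx (base_mem hn1 hγ) (mem_of_bad hn1 hxp)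
  · have heL : ((Real.exp 1 : ℝ) : ℂ) ∈ Lt := by
      obtain ⟨z, hz, hze⟩ := hee
      have h1 : ((Real.exp 1 ^ Real.exp 1 : ℝ) : ℂ) = Complex.exp ((Real.exp 1 : ℝ) : ℂ) := by
        rw [Real.exp_one_rpow, Complex.ofReal_exp]
      rw [h1] at hze
      exact mem_of_exp hz hze.symm
    have h1 := count_of (N := N) (r := 1)
      (fun n => ∃ γ ∈ realAlg, ∃ x ∈ linearExps, ((n * Real.exp γ : ℝ) : ℂ) ^ x ∈ Prods) (by
      intro m n hn halg hli
      choose hn1 γ hγ x hx hxp using hn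
      have h5 := mult_two e_tr (m := m + 1) _ (indep_cons halg hli) ?_ ?_
      · omega
      · intro i
        refine Fin.cases ?_ (fun i => ?_) i
        · exact Lt_one
        · rw [finSuccEquiv_succ]
          exact Lt_log (halg i)
      · intro i
        refine Fin.cases ?_ (fun i => ?_) i
        · rw [finSuccEquiv_zero]
          change _ * (1 : ℂ) ∈ Lt
          rw [mul_one]
          exact heL
        · rw [finSuccEquiv_succ]
          change ((Real.exp 1 : ℝ) : ℂ) * ((Real.log (n i) : ℝ) : ℂ) ∈ Lt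
          have h6 := linear_mem (hx i) (base_mem (hn1 i) (hγ i)) (mem_of_bad (hn1 i) (hxp i))
          have h7 : ((Real.exp 1 : ℝ) : ℂ) * ((Real.log (n i) : ℝ) : ℂ) =
            ((Real.exp 1 : ℝ) : ℂ) * ((γ i : ℂ) + ((Real.log (n i) : ℝ) : ℂ)) -
              (γ i : ℂ) * ((Real.exp 1 : ℝ) : ℂ) := by ring
          rw [h7]
          exact Lt.sub_mem h6 (Lt_mul (alg_real (hγ i)) heL))
    rw [pow_one] at h1
    refine le_trans (le_of_eq ?_) h1
    unfold bad
    congr
  · refine mult_poly_bound e_tr hD u hu huL fun i => ?_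
    obtain ⟨x, ⟨P, h1, h2, rfl⟩, hx⟩ := h i
    exact ⟨P, h1, h2, hx⟩
  · have h1 := mult_bound ![((Real.exp 1 : ℝ) : ℂ)] hD u hu huL fun i => by
      obtain ⟨x, ⟨htr, P, Q, hP, hQ, hQ0, hxe⟩, hx⟩ := h i
      exact ⟨x, ⟨P, Q, hP, hQ, hQ0, hxe⟩, htr, hx⟩
    have e : 2 * ((4 * D) ^ 1 - 2 ^ 1) = 8 * D - 4 := by rw [pow_one, pow_one]; omega
    rwa [e] at h1
  · have h1 := mult_bound ![((Real.exp 1 : ℝ) : ℂ), ((Real.pi : ℝ) : ℂ)] hD u hu huL fun i => by
      obtain ⟨x, ⟨htr, P, Q, hP, hQ, hQ0, hxe⟩, hx⟩ := h i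
      exact ⟨x, ⟨P, Q, hP, hQ, hQ0, hxe⟩, htr, hx⟩
    have e : 2 * ((4 * D) ^ 2 - 2 ^ 2) = 32 * D ^ 2 - 8 := by
      have : (4 * D) ^ 2 = 16 * D ^ 2 := by ring
      omega
    rwa [e] at h1
  · refine ⟨Complex.log x, ?_, Complex.exp_log hx0⟩
    refine Submodule.subset_span (Or.inr ?_)
    change IsAlgebraic ℚ (Complex.exp (Complex.log x))
    rwa [Complex.exp_log hx0]
  · refine ⟨1, Submodule.subset_span (Or.inl rfl), ?_⟩
    rw [Complex.ofReal_exp, Complex.ofReal_one]

end Pool.Agent.Results.MP_58ae59_nt.BasesTimesPowersOfE
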