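import Pool.Agent.R347.LW.Dich

/-!
# The numbers `e ^ (x s + z)`, for example with `s = e`

Let `q_0, q_1, …` be a sequence of integers `≥ 2`, and let `tower h` be the `h`-fold iterate of
`n ↦ 2 ^ n`. A complex number is *approximable* if, for some `h` and every `κ`, for all large `k` it has
an algebraic approximation of degree at most `tower h (q_k)`, with a polynomial over `ℤ` with coefficients
of absolute value at most `tower h (q_k)`, and with an error of at most `1 / tower κ (q_k)`. A real number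
is *rationally approximable* if the approximations can be chosen in `ℚ`, with denominators at most
`tower h (q_k)`. The approximable numbers form an algebraically closed field `K`, the rationally approximable numbers
form a field `R`, and `R ⊆ K`.

**Theorem.** Let `s` be a complex number, for example `s = e` or `s = e ^ e`.

(1) There is at most one `z` in `K` for which `exp (s + z)` is in `K`. If `z_1, …, z_n` in `K` are linearly independent
over `ℚ`, the field `K(exp s, exp (s + z_1), …, exp (s + z_n))` has transcendence degree at least `n` over `K`.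

(2) Either (a) `exp (x s + z)` is not in `K` for all `(x, z) ≠ (0, 0)` in `R × K`, and for these `(x, z)` the numbers
`exp (y_1 (x s + z)), …, exp (y_n (x s + z))` are algebraically independent over `K` for all `y_1, …, y_n` in `R` which are
linearly independent over `ℚ`; or (b) there is `z₀` in `K` such that for `(x, z)` in `R × K` the number `exp (x s + z)` is
in `K` if and only if `z = x z₀`, and `exp (x_1 s + z_1), …, exp (x_n s + z_n)` are algebraically independent over `K`
for all `(x_i, z_i)` in `R × K` for which the numbers `z_i - x_i z₀` are linearly independent over `ℚ`.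

(3) `e` is not in `K`. If `e ^ e` is in `K`, for example if it is rational, then
`e ^ (x_1 e + z_1), …, e ^ (x_n e + z_n)` are algebraically independent over `K` for all `x_i` in `R` and all
`z_i` in `K` for which `z_1, …, z_n` are linearly independent over `ℚ`; in particular `e ^ (x e + z)` is
transcendental for `z ≠ 0`.

For the explicit sequence `q_k = 2 ^ e_k`, `e_0 = 1`, `e_(k + 1) = tower (k + 2) (e_k)` all the sums of
numbers `1 / q_k` over arbitrary sets of `k` are in `R`, they are pairwise different, and `K` has transcendence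
degree the cardinality of the continuum.

The proof uses the theorem of Lindemann and Weierstrass over `K` (`MP_9cd479_nt.PowerClosedFields`) and the dichotomy
for the numbers `exp (x l)`, `x` in `R`, in `MP_4c2ad3_nt.PowersOfPi`.
-/

set_option autoImplicit false

namespace Pool.Agent.Results.MP_58ae59_nt.ExponentsNearE

/-- The `h`-fold iterate of `n ↦ 2 ^ n`. -/
def tower : ℕ → ℕ → ℕ
  | 0, q => q
  | h + 1, q => 2 ^ tower h q

/-- `a` is a zero of a nonzero polynomial over `ℤ` of degree at most `N` whose coefficients have absolute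
value at most `N`. -/
def Bounded (N : ℕ) (a : ℂ) : Prop :=
  ∃ P : Polynomial ℤ, P ≠ 0 ∧ P.natDegree ≤ N ∧ (∀ n, |P.coeff n| ≤ N) ∧ Polynomial.aeval a P = 0

/-- For some `h` and every `κ`, for all large `k` the number `z` has an algebraic approximation of
complexity at most `tower h (q k)` and with an error of at most `1 / tower κ (q k)`. -/
def Approximable (q : ℕ → ℕ) (z : ℂ) : Prop :=
  ∃ h : ℕ, ∀ κ : ℕ, ∃ k₀ : ℕ, ∀ k ≥ k₀, ∃ a : ℂ, Bounded (tower h (q k)) a ∧
    ‖z - a‖ ≤ ((tower κ (q k) : ℕ) : ℝ)⁻¹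

/-- For some `h` and every `κ`, for all large `k` the real number `x` has a rational approximation with a
denominator at most `tower h (q k)` and with an error of at most `1 / tower κ (q k)`. -/
def RationallyApproximable (q : ℕ → ℕ) (x : ℝ) : Prop :=
  ∃ h : ℕ, ∀ κ : ℕ, ∃ k₀ : ℕ, ∀ k ≥ k₀, ∃ (u : ℤ) (v : ℕ), 1 ≤ v ∧ v ≤ tower h (q k) ∧
    |x - u / v| ≤ ((tower κ (q k) : ℕ) : ℝ)⁻¹

/-- The exponents `e_0 = 1`, `e_(k + 1) = tower (k + 2) (e_k)`. -/
def e : ℕ → ℕ
  | 0 => 1
  | k + 1 => tower (k + 2) (e k)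

/-- The explicit sequence `q_k = 2 ^ e_k`. -/
def q₀ (k : ℕ) : ℕ := 2 ^ e k

/-- The sum of the numbers `1 / q_k` over the elements `k` of the set `A`. -/
noncomputable def number (A : Set ℕ) : ℝ :=
  ∑' k, Set.indicator A (fun k => 1 / (q₀ k : ℝ)) k

/-- (1) -/
def AtMostOne (K : IntermediateField ℚ ℂ) (s : ℂ) : Prop :=
  (∀ z ∈ K, ∀ w ∈ K, Complex.exp (s + z) ∈ K → Complex.exp (s + w) ∈ K → z = w) ∧
  ∀ (n : ℕ) (z : Fin n → K), LinearIndependent ℚ z →
    (n : Cardinal) ≤ Algebra.trdeg K (IntermediateField.adjoin K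
      ({Complex.exp s} ∪ Set.range fun i => Complex.exp (s + z i)))

/-- (2) (a) -/
def NoneIn (K : IntermediateField ℚ ℂ) (R : IntermediateField ℚ ℝ) (s : ℂ) : Prop :=
  ∀ x ∈ R, ∀ z ∈ K, x ≠ 0 ∨ z ≠ 0 → Complex.exp (x * s + z) ∉ K ∧
    ∀ (n : ℕ) (y : Fin n → R), LinearIndependent ℚ y →
      AlgebraicIndependent K (fun i => Complex.exp (((y i : ℝ) : ℂ) * (x * s + z)))

/-- (2) (b) -/
def LineIn (K : IntermediateField ℚ ℂ) (R : IntermediateField ℚ ℝ) (s : ℂ) : Prop :=
  ∃ z₀ ∈ K, (∀ x ∈ R, ∀ z ∈ K, Complex.exp (x * s + z) ∈ K ↔ z = x * z₀) ∧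
    ∀ (n : ℕ) (x : Fin n → R) (z : Fin n → K),
      LinearIndependent ℚ (fun i => (z i : ℂ) - ((x i : ℝ) : ℂ) * z₀) →
      AlgebraicIndependent K (fun i => Complex.exp (((x i : ℝ) : ℂ) * s + z i))

/-- the number `e` -/
noncomputable def euler : ℂ := Complex.exp 1

/-- (3) -/
def AtEuler (K : IntermediateField ℚ ℂ) (R : IntermediateField ℚ ℝ) : Prop :=
  euler ∉ K ∧ (Complex.exp euler ∈ K → ∀ (n : ℕ) (x : Fin n → R) (z : Fin n → K), LinearIndependent ℚ z →
    AlgebraicIndependent K (fun i => Complex.exp (((x i : ℝ) : ℂ) * euler + z i)))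

/-- the statements (1), (2), (3) for the fields `K` and `R` -/
def Good (K : IntermediateField ℚ ℂ) (R : IntermediateField ℚ ℝ) : Prop :=
  (∀ s : ℂ, AtMostOne K s ∧ (NoneIn K R s ∨ LineIn K R s)) ∧ AtEuler K R

theorem tower_eq : tower = Pool.Agent.R347.LW.tow := by
  funext h q
  induction h with
  | zero => rfl
  | succ h ih => rw [tower, Pool.Agent.R347.LW.tow, ih]

theorem approximable_iff (q : ℕ → ℕ) (z : ℂ) : Approximable q z ↔ Pool.Agent.R347.LW.Appr q z := by
  unfold Approximable Pool.Agent.R347.LW.Appr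
  rw [tower_eq]
  rfl

theorem rationallyApproximable_iff (q : ℕ → ℕ) (x : ℝ) :
    RationallyApproximable q x ↔ Pool.Agent.R347.LW.RAppr q x := by
  unfold RationallyApproximable Pool.Agent.R347.LW.RAppr
  rw [tower_eq]

theorem e_eq : e = Pool.Agent.R347.LW.eT := by
  funext k
  induction k with
  | zero => rfl
  | succ k ih => rw [e, Pool.Agent.R347.LW.eT, ih, tower_eq]

theorem q₀_eq : q₀ = Pool.Agent.R347.LW.qT := by
  funext k
  rw [q₀, Pool.Agent.R347.LW.qT, e_eq]

theorem number_eq : number = Pool.Agent.R347.LW.xiT := by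
  funext A
  rw [number, Pool.Agent.R347.LW.xiT]
  refine tsum_congr fun k => ?_
  have h1 : 1 / (q₀ k : ℝ) = (1 / 2 : ℝ) ^ Pool.Agent.R347.LW.eT k := by
    rw [q₀, e_eq]
    push_cast
    rw [one_div, one_div, inv_pow]
  by_cases h : k ∈ A
  · rw [Set.indicator_of_mem h, Pool.Agent.R347.LW.trT_of_mem h, h1]
  · rw [Set.indicator_of_notMem h, Pool.Agent.R347.LW.trT_of_notMem h]

section

open Pool.Agent.R347.LW

variable {q : ℕ → ℕ} (hq : ∀ k, 2 ≤ q k)

include hq

theorem trdeg_ge {n : ℕ} {z : Fin n → ℂ} (hz : AlgebraicIndependent (UK hq) z) (S : Set ℂ)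
    (h : ∀ i, z i ∈ IntermediateField.adjoin (UK hq) S) :
    (n : Cardinal) ≤ Algebra.trdeg (UK hq) (IntermediateField.adjoin (UK hq) S) := by
  let f : Fin n → IntermediateField.adjoin (UK hq) S := fun i => ⟨z i, h i⟩
  have hf : AlgebraicIndependent (UK hq) f := by
    have h1 : Function.Injective (IntermediateField.adjoin (UK hq) S).val := (IntermediateField.adjoin (UK hq) S).val.injective
    exact ((IntermediateField.adjoin (UK hq) S).val.algebraicIndependent_iff h1).1 hz
  have h4 := hf.cardinalMk_le_trdeg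
  simpa using h4

theorem unit_mul {ι : Type*} {z c : ι → ℂ} (hz : AlgebraicIndependent (UK hq) z) (hc : ∀ i, c i ∈ UK hq) (hc0 : ∀ i, c i ≠ 0) :
    AlgebraicIndependent (UK hq) (fun i => c i * z i) := by
  classical
  let φ : MvPolynomial ι (UK hq) →ₐ[UK hq] MvPolynomial ι (UK hq) :=
    MvPolynomial.aeval fun i => MvPolynomial.C (⟨c i, hc i⟩ : UK hq) * MvPolynomial.X i
  let ψ : MvPolynomial ι (UK hq) →ₐ[UK hq] MvPolynomial ι (UK hq) :=
    MvPolynomial.aeval fun i => MvPolynomial.C (⟨c i, hc i⟩ : UK hq)⁻¹ * MvPolynomial.X i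
  have hψφ : ψ.comp φ = AlgHom.id _ _ := by
    apply MvPolynomial.algHom_ext
    intro i
    have h0 : (⟨c i, hc i⟩ : UK hq) ≠ 0 := fun h => hc0 i (congrArg Subtype.val h)
    simp only [φ, ψ, AlgHom.comp_apply, MvPolynomial.aeval_X, map_mul, AlgHom.id_apply, MvPolynomial.algHom_C,
      MvPolynomial.algebraMap_eq]
    rw [← mul_assoc, ← map_mul, mul_inv_cancel₀ h0, map_one, one_mul]
  have hφ : Function.Injective φ := fun a b h => by
    have h1 := congrArg ψ h
    have h2 : ∀ a, ψ (φ a) = a := fun a => by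
      have := congrArg (fun f : MvPolynomial ι (UK hq) →ₐ[UK hq] MvPolynomial ι (UK hq) => f a) hψφ
      exact this
    rwa [h2, h2] at h1
  rw [AlgebraicIndependent] at hz ⊢
  have h1 : MvPolynomial.aeval (R := UK hq) (fun i => c i * z i) = (MvPolynomial.aeval (R := UK hq) z).comp φ := by
    apply MvPolynomial.algHom_ext
    intro i
    simp only [φ, AlgHom.comp_apply, MvPolynomial.aeval_X, map_mul, MvPolynomial.algHom_C]
    rfl
  rw [h1]
  exact hz.comp hφ

theorem exp_trans {z : ℂ} (hz : z ∈ UK hq) (h : Complex.exp z ∈ UK hq) : z = 0 := by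
  by_contra h0
  have h1 := algIndU hq 1 (fun _ => ⟨z, hz⟩) (by
    rw [linearIndependent_unique_iff]
    intro h2
    exact h0 (congrArg Subtype.val h2))
  exact h1.transcendental 0 (isAlgebraic_algebraMap (⟨_, h⟩ : UK hq))

theorem atMostOne (s : ℂ) : AtMostOne (UK hq) s := by
  refine ⟨fun z hz w hw h1 h2 => ?_, fun n z hz => ?_⟩
  · have h3 : Complex.exp (z - w) ∈ UK hq := by
      have h4 : Complex.exp (z - w) = Complex.exp (s + z) * (Complex.exp (s + w))⁻¹ := by
        rw [← Complex.exp_neg, ← Complex.exp_add]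
        congr 1
        ring
      rw [h4]
      exact mul_mem h1 (inv_mem h2)
    exact sub_eq_zero.1 (exp_trans hq (sub_mem hz hw) h3)
  · refine trdeg_ge hq (algIndU hq n z hz) _ fun i => ?_
    have h4 : Complex.exp (z i : ℂ) = Complex.exp (s + z i) * (Complex.exp s)⁻¹ := by
      rw [← Complex.exp_neg, ← Complex.exp_add]
      congr 1
      ring
    rw [h4]
    exact mul_mem (IntermediateField.subset_adjoin _ _ (Or.inr ⟨i, rfl⟩))
      (inv_mem (IntermediateField.subset_adjoin _ _ (Or.inl rfl)))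

theorem line {s z₀ : ℂ} (hz₀ : z₀ ∈ UK hq) (h : Complex.exp (s + z₀) ∈ UK hq) :
    (∀ x ∈ UR hq, ∀ z ∈ UK hq, Complex.exp (x * s + z) ∈ UK hq ↔ z = x * z₀) ∧
    ∀ (n : ℕ) (x : Fin n → UR hq) (z : Fin n → UK hq),
      LinearIndependent ℚ (fun i => (z i : ℂ) - ((x i : ℝ) : ℂ) * z₀) →
      AlgebraicIndependent (UK hq) (fun i => Complex.exp (((x i : ℝ) : ℂ) * s + z i)) := by
  have hpow : ∀ x ∈ UR hq, Complex.exp (x * (s + z₀)) ∈ UK hq := fun x hx => Appr.rpow hq h hx
  have hRK : ∀ x ∈ UR hq, (x : ℂ) ∈ UK hq := fun x hx => RAppr.appr hq hx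
  refine ⟨fun x hx z hz => ⟨fun h1 => ?_, fun h1 => ?_⟩, fun n x z hz => ?_⟩
  · have h3 : Complex.exp (z - x * z₀) ∈ UK hq := by
      have h4 : Complex.exp (z - x * z₀) = Complex.exp (x * s + z) * (Complex.exp (x * (s + z₀)))⁻¹ := by
        rw [← Complex.exp_neg, ← Complex.exp_add]
        congr 1
        ring
      rw [h4]
      exact mul_mem h1 (inv_mem (hpow x hx))
    exact sub_eq_zero.1 (exp_trans hq (sub_mem hz (mul_mem (hRK x hx) hz₀)) h3)
  · rw [h1, ← mul_add]
    exact hpow x hx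
  · set w : Fin n → UK hq := fun i => ⟨(z i : ℂ) - ((x i : ℝ) : ℂ) * z₀,
      sub_mem (z i).2 (mul_mem (hRK _ (x i).2) hz₀)⟩ with hw
    have hwLI : LinearIndependent ℚ w := by
      have h1 : LinearIndependent ℚ (fun i => (UK hq).val.toLinearMap (w i)) := hz
      exact LinearIndependent.of_comp _ h1
    have h6 := unit_mul hq (algIndU hq n w hwLI) (fun i => hpow _ (x i).2) (fun i => Complex.exp_ne_zero _)
    convert h6 using 2 with i
    rw [← Complex.exp_add]
    congr 1
    simp only [hw]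
    ring

theorem alternative (s : ℂ) : NoneIn (UK hq) (UR hq) s ∨ LineIn (UK hq) (UR hq) s := by
  by_cases h : ∃ x ∈ UR hq, ∃ z ∈ UK hq, (x ≠ 0 ∨ z ≠ 0) ∧ Complex.exp (x * s + z) ∈ UK hq
  · right
    obtain ⟨x, hx, z, hz, hne, h1⟩ := h
    have hx0 : x ≠ 0 := by
      rintro rfl
      rcases hne with h2 | h2
      · exact h2 rfl
      · refine h2 (exp_trans hq hz ?_)
        simpa using h1
    have hxC : (x : ℂ) ≠ 0 := by exact_mod_cast hx0
    have hxi : x⁻¹ ∈ UR hq := inv_mem hx
    have h2 := Appr.rpow hq h1 hxi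
    have h3 : Complex.exp (s + (x : ℂ)⁻¹ * z) ∈ UK hq := by
      have h4 : ((x⁻¹ : ℝ) : ℂ) * (x * s + z) = s + (x : ℂ)⁻¹ * z := by
        push_cast
        field_simp
      rw [h4] at h2
      exact h2
    have hz₀ : (x : ℂ)⁻¹ * z ∈ UK hq := mul_mem (inv_mem (RAppr.appr hq hx)) hz
    exact ⟨_, hz₀, line hq hz₀ h3⟩
  · left
    intro x hx z hz hne
    have h1 : Complex.exp (x * s + z) ∉ UK hq := fun h1 => h ⟨x, hx, z, hz, hne, h1⟩
    exact ⟨h1, fun n y hy => dich hq _ h1 n y hy⟩

theorem good : Good (UK hq) (UR hq) := by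
  refine ⟨fun s => ⟨atMostOne hq s, alternative hq s⟩, fun h => ?_, fun h n x z hz => ?_⟩
  · exact one_ne_zero (exp_trans hq (one_mem (UK hq)) h)
  · have h1 := line hq (s := euler) (zero_mem (UK hq)) (by rw [add_zero]; exact h)
    refine h1.2 n x z ?_
    have h2 : (fun i => (z i : ℂ) - ((x i : ℝ) : ℂ) * 0) = fun i => (UK hq).val.toLinearMap (z i) := by
      funext i
      rw [mul_zero, sub_zero]
      rfl
    rw [h2]
    exact hz.map' _ (LinearMap.ker_eq_bot.2 Subtype.val_injective)

end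

/-- **Main result.** -/
theorem result :
    (∀ q : ℕ → ℕ, (∀ k, 2 ≤ q k) → ∃ (K : IntermediateField ℚ ℂ) (R : IntermediateField ℚ ℝ),
      (∀ z, z ∈ K ↔ Approximable q z) ∧ (∀ x, x ∈ R ↔ RationallyApproximable q x) ∧ IsAlgClosed K ∧
      (∀ x ∈ R, (x : ℂ) ∈ K) ∧ Good K R) ∧
    (∀ k, 2 ≤ q₀ k) ∧ (∀ A : Set ℕ, RationallyApproximable q₀ (number A)) ∧
    Function.Injective number ∧
    (∀ K : IntermediateField ℚ ℂ, (∀ z, z ∈ K ↔ Approximable q₀ z) →
      Algebra.trdeg ℚ K = Cardinal.continuum) := by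
  refine ⟨fun q hq => ⟨Pool.Agent.R347.LW.UK hq, Pool.Agent.R347.LW.UR hq, fun z => (approximable_iff q z).symm,
    fun x => (rationallyApproximable_iff q x).symm, Pool.Agent.R347.LW.UK_closed hq, fun x hx => ?_, good hq⟩,
    ?_, fun A => ?_, ?_, fun K hK => ?_⟩
  · exact Pool.Agent.R347.LW.RAppr.appr hq hx
  · intro k
    rw [q₀_eq]
    exact Pool.Agent.R347.LW.two_le_qT k
  · rw [rationallyApproximable_iff, q₀_eq, number_eq]
    exact Pool.Agent.R347.LW.xiT_rappr A
  · rw [number_eq]
    exact Pool.Agent.R347.LW.xiT_injective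
  · have h1 : K = Pool.Agent.R347.LW.UK Pool.Agent.R347.LW.two_le_qT := by
      ext z
      rw [hK, approximable_iff, q₀_eq]
      rfl
    rw [h1]
    exact Pool.Agent.R347.LW.UK_trdeg _

end Pool.Agent.Results.MP_58ae59_nt.ExponentsNearE
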