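import Pool.Agent.R349.Short2
import Pool.Agent.R349.ExpPoly

/-!
# Exponentials of `e^x`, `x log x`, `e x`, ... at algebraic numbers `x` near `1` and near `e`: a bounded number of
# exceptions in small discs

Let `Q_1, …, Q_a` be polynomials in three variables with complex coefficients, such that no nontrivial combination of them
with integral coefficients is of the form `m₁ X + m₂ Y + c` with integers `m₁, m₂` and a complex number `c`. We consider
the numbers

`log x, e^x, exp(Q_1(x, log x, e^x)), …, exp(Q_a(x, log x, e^x))`.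

They include several functions with the value `e ^ e` at `x = 1`, for instance `e^(e^x)`, `e^(x e^x) = (e^x)^(e^x)`,
`(e^e)^x = e^(e x)`, and at `x = e`: `e^x`, `x^x = e^(x log x)`, `x^e = e^(e log x)`; the polynomials `Z, X Z, e X, X Y,
e Y` satisfy the condition, since `e` is irrational.

We show that **at most `C` algebraic numbers `x` of height at most `T` of a number field `F` in a disc of radius
`T ^ (-δ)`**, for instance around `1` or around `e`, are exceptions to the following: these `a + 2` numbers satisfy no
polynomial relation, not even an approximate one, of degree at most `d` and height at most `T ^ A` whose coefficients are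
combinations of given complex numbers `ξ_1, …, ξ_g`, for instance of monomials in `e` and `e ^ e`; and together with `π`
no relation over `F`. Here `A` and `δ > 0` are arbitrary, and `C` does not depend on `T` and on the field `F` of degree at
most `m`; the numbers `x` may approach `1` or `e` at any polynomial rate in their height. More generally, let
`X_1, …, X_n` be finite sets of elements of `F` of height at most `T`, with images in a compact subset `K` of the slit
plane, each of them of diameter at most `T ^ (-δ)`; for instance all elements of `X_j` can be fractions with one fixed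
denominator `T`. All but `C ∑_j ∏_(i ≠ j) |X_i|` of the tuples of `X_1 × … × X_n` are good, that is, the `(a + 2) n` numbers
have the property above, and there is a good one if all `|X_j| > C`.

The starting results for this problem exclude only that a small power of `e ^ e` is a power of a fraction `p / q` with
small `p - q`.

The proof uses Ax's theorem, relative to countable fields of constants, twice (`Pool.Agent.R349.Semi.expPoly`), and a
determinant method for small discs (`Pool.Agent.R349.Gen.shortG`).
-/

set_option autoImplicit false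

open NumberField

namespace Pool.Agent.Results.MP_58ae59_nt.SmallDiscs

/-- The polynomials of degree at most `d` in each variable, all of whose coefficients are of the form `∑ ξ_i ι(c_i)`, where
the `c_i` are integers of the number field `F` all of whose conjugates have absolute value at most `H`. -/
def Admissible {σ : Type} {g : ℕ} (F : Type) [Field F] [NumberField F] (ι : F →+* ℂ) (ξ : Fin g → ℂ) (d : ℕ) (H : ℝ)
    (P : MvPolynomial σ ℂ) : Prop :=
  (∀ y, P.degreeOf y ≤ d) ∧
    ∀ s, ∃ c : Fin g → 𝓞 F, (∀ i (φ : F →+* ℂ), ‖φ (c i)‖ ≤ H) ∧ P.coeff s = ∑ i, ξ i * ι (c i)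

/-- The complex numbers `v` are good: every admissible polynomial takes at them a value which is at least `δ` times each of
its coefficients, and `π` and these numbers satisfy no relation `Q = 0` with a nonzero polynomial `Q` of degree at most `d`
in each variable whose coefficients are integers of `F` with conjugates of absolute value at most `H`. -/
def Good {σ : Type} {g : ℕ} (F : Type) [Field F] [NumberField F] (ι : F →+* ℂ) (ξ : Fin g → ℂ) (d : ℕ)
    (H δ : ℝ) (v : σ → ℂ) : Prop :=
  (∀ P : MvPolynomial σ ℂ, Admissible F ι ξ d H P → ∀ s, δ * ‖P.coeff s‖ ≤ ‖MvPolynomial.aeval v P‖) ∧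
  ∀ Q : MvPolynomial (Option σ) (𝓞 F), Q ≠ 0 → (∀ x, Q.degreeOf x ≤ d) →
    (∀ s (φ : F →+* ℂ), ‖φ ((Q.coeff s : 𝓞 F) : F)‖ ≤ H) →
    MvPolynomial.eval₂ (ι.comp (algebraMap (𝓞 F) F)) (fun o => o.elim (Real.pi : ℂ) v) Q ≠ 0

/-- The element `x` of `F` is a quotient of integers all of whose conjugates have absolute value at most `T`. -/
def HeightLe (F : Type) [Field F] [NumberField F] (T : ℝ) (x : F) : Prop :=
  ∃ a b : 𝓞 F, b ≠ 0 ∧ (∀ φ : F →+* ℂ, ‖φ a‖ ≤ T ∧ ‖φ b‖ ≤ T) ∧ x = a / b

/-- The numbers `log x`, `e ^ x` and `exp(Q_i(x, log x, e ^ x))`. -/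
noncomputable def value {a : ℕ} (Q : Fin a → MvPolynomial (Fin 3) ℂ) (x : ℂ) : Option (Option (Fin a)) → ℂ
  | none => Complex.log x
  | some none => Complex.exp x
  | some (some i) => Complex.exp (MvPolynomial.eval ![x, Complex.log x, Complex.exp x] (Q i))

/-- No nontrivial combination of the `Q_i` with integral coefficients is of the form `m₁ X + m₂ Y + c` with integers
`m₁`, `m₂`. -/
def Independent {a : ℕ} (Q : Fin a → MvPolynomial (Fin 3) ℂ) : Prop :=
  ∀ (m : Fin a → ℤ) (m₁ m₂ : ℤ) (c : ℂ),
    ∑ i, (m i : ℂ) • Q i = (m₁ : ℂ) • MvPolynomial.X 0 + (m₂ : ℂ) • MvPolynomial.X 1 + MvPolynomial.C c → m = 0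

/-- the enumeration of the functions -/
def enum (a : ℕ) : Option (Option (Fin a)) → Fin (a + 2)
  | none => 0
  | some none => 1
  | some (some i) => i.succ.succ

theorem enum_inj (a : ℕ) : Function.Injective (enum a) := by
  rintro (_ | _ | i) (_ | _ | j) h
  · rfl
  · exact absurd (congrArg Fin.val h) (by simp [enum])
  · exact absurd (congrArg Fin.val h) (by simp [enum])
  · exact absurd (congrArg Fin.val h) (by simp [enum])
  · rfl
  · exact absurd (congrArg Fin.val h) (by simp [enum])
  · exact absurd (congrArg Fin.val h) (by simp [enum])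
  · exact absurd (congrArg Fin.val h) (by simp [enum])
  · have h1 : i = j := Fin.succ_injective _ (Fin.succ_injective _ h)
    rw [h1]

theorem value_eq {a : ℕ} (Q : Fin a → MvPolynomial (Fin 3) ℂ) (k : Option (Option (Fin a))) :
    (fun z => value Q z k) = (Fin.cons Complex.log
      (fun i z => Complex.exp (Pool.Agent.R349.Semi.eq Q i z)) : Fin (a + 2) → ℂ → ℂ) (enum a k) := by
  funext z
  rcases k with _ | _ | i <;> rfl

/-- Let `K` be a compact subset of the slit plane. For all `n`, `m`, `g`, `d`, `A` and `δ > 0` there are `B`, `C`, `T₀`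
with the property stated above. -/
theorem result {a : ℕ} (Q : Fin a → MvPolynomial (Fin 3) ℂ) (hQ : Independent Q) (n : ℕ)
    (K : Set ℂ) (hK : IsCompact K) (hKs : K ⊆ Complex.slitPlane) (m g d : ℕ) (A δ : ℝ) (hδ : 0 < δ) :
    ∃ (B : ℝ) (C : ℕ) (T₀ : ℝ), ∀ (F : Type) [Field F] [NumberField F], Module.finrank ℚ F ≤ m →
      ∀ (ι : F →+* ℂ) (ξ : Fin g → ℂ) (T : ℝ), T₀ ≤ T → ∀ X : Fin n → Finset F,
        (∀ j, ∀ x ∈ X j, ι x ∈ K ∧ HeightLe F T x) → (∀ j, ∀ x ∈ X j, ∀ y ∈ X j, ‖ι x - ι y‖ ≤ T ^ (-δ)) →
        (({x : Fin n → F | (∀ j, x j ∈ X j) ∧ ¬ Good F ι ξ d (T ^ A) (T ^ (-B))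
          (fun k : Fin n × Option (Option (Fin a)) => value Q (ι (x k.1)) k.2)}.ncard : ℝ) ≤
          C * ∑ j, ∏ i ∈ Finset.univ.erase j, ((X i).card : ℝ)) ∧
        ((∀ j, C < (X j).card) → ∃ x : Fin n → F, (∀ j, x j ∈ X j) ∧ Good F ι ξ d (T ^ A) (T ^ (-B))
          (fun k : Fin n × Option (Option (Fin a)) => value Q (ι (x k.1)) k.2)) := by
  have hfun : (fun (k : Option (Option (Fin a))) z => value Q z k) = fun k => (Fin.cons Complex.log
      (fun i z => Complex.exp (Pool.Agent.R349.Semi.eq Q i z)) : Fin (a + 2) → ℂ → ℂ) (enum a k) := by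
    funext k
    exact value_eq Q k
  exact Pool.Agent.R349.Gen.shortG m n g d (fun (_ : Fin n) (k : Option (Option (Fin a))) z => value Q z k) K hK
    (fun _ k t ht => by
      rw [value_eq Q k]
      refine Fin.cases ?_ (fun k => ?_) (enum a k)
      · exact Pool.Agent.R349.Semi.log_an t (hKs ht)
      · exact (Pool.Agent.R349.Semi.eq_an Q k t (hKs ht)).cexp)
    (fun _ t ht => by
      rw [hfun]
      exact Pool.Agent.Y776.Cv.LocInd.comp_inj (Pool.Agent.R349.Semi.expPoly hQ t (hKs ht)) (enum_inj a)) A δ hδ

end Pool.Agent.Results.MP_58ae59_nt.SmallDiscs
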